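import Pool.Agent.H.MP_0c4bbf_an.B
namespace Pool.Agent.H.MP_36132b_an
open Filter Topology Complex Metric Finset MeasureTheory
open scoped InnerProductSpace

variable {E : Type} [NormedAddCommGroup E] [InnerProductSpace ℂ E]

lemma null {K : Set E} (k1 : K ⊆ sphere 0 1)
    (hK : ∀ ε > 0, ∃ P : Finset E, (∀ p ∈ P, 1 - ε ≤ ‖p‖ ∧ ‖p‖ ≤ 1) ∧
      ∀ x ∈ K, ∃ p ∈ P, #P * ‖⟪p, x⟫_ℂ - (‖p‖ ^ 2 : ℝ)‖ ≤ ε) {a b : ℝ} {φ φ' : ℝ → E}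
    (hd : ∀ t ∈ Set.Icc a b, HasDerivWithinAt φ (φ' t) (Set.Icc a b) t)
    (hc : ContinuousOn φ' (Set.Icc a b)) (h0 : ∀ t ∈ Set.Icc a b, ⟪φ t, φ' t⟫_ℂ ≠ 0) :
    volume {t ∈ Set.Icc a b | φ t ∈ K} = 0 := by
  refine measure_null_of_locally_null _ fun t0 ht => ?_
  have c0 := norm_pos_iff.2 (h0 t0 ht.1)
  set c := ⟪φ t0, φ' t0⟫_ℂ
  have e1 : Tendsto (fun q : E × ℝ => ⟪q.1, φ' q.2⟫_ℂ) (𝓝 (φ t0) ×ˢ 𝓝[Set.Icc a b] t0) (𝓝 c) :=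
    .inner tendsto_fst ((hc t0 ht.1).tendsto.comp tendsto_snd)
  obtain ⟨U, hU, V, hV, e2⟩ := eventually_prod_iff.1 (e1.eventually (ball_mem_nhds c (half_pos c0)))
  obtain ⟨ε0, e0, hU⟩ := Metric.eventually_nhds_iff.1 hU
  obtain ⟨δ, d0, hV⟩ := Metric.mem_nhdsWithin_iff.1 (hV.and ((hd t0 ht.1).continuousWithinAt.eventually
    (ball_mem_nhds _ (half_pos e0))))
  refine ⟨_, inter_mem_nhdsWithin _ (ball_mem_nhds t0 d0), le_zero_iff.1 (ge_of_tendsto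
    (f := fun ε : ℝ => ENNReal.ofReal (4 * ε / ‖c‖)) (x := 𝓝[>] 0) (by
      simpa using (ENNReal.tendsto_ofReal (Continuous.tendsto (f := fun ε : ℝ => 4 * ε / ‖c‖)
        (by fun_prop) 0)).mono_left nhdsWithin_le_nhds) ?_)⟩
  filter_upwards [Ioo_mem_nhdsGT (show 0 < ε0 ^ 2 / 16 by positivity)] with ε hε
  obtain ⟨P, p1, p2⟩ := hK ε hε.1
  refine (measure_mono (t := ⋃ p ∈ P, {t ∈ ball t0 δ ∩ Set.Icc a b | U p ∧
    #P * ‖⟪p, φ t⟫_ℂ - (‖p‖ ^ 2 : ℝ)‖ ≤ ε}) fun t ht => ?_).trans ((measure_biUnion_finset_le _ _).trans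
      ((sum_le_card_nsmul _ _ (ENNReal.ofReal (4 * ε / ‖c‖ / #P)) fun p hp => ?_).trans ?_))
  · obtain ⟨p, e3, e4⟩ := p2 _ ht.1.2
    refine Set.mem_biUnion e3 ⟨⟨ht.2, ht.1.1⟩, hU ?_, e4⟩
    have e5 := norm_sub_sq (𝕜 := ℂ) p (φ t)
    have e6 : (1 : ℝ) ≤ #P := by exact_mod_cast card_pos.2 ⟨p, e3⟩
    have e7 := (neg_abs_le _).trans' (neg_le_neg (abs_re_le_norm (⟪p, φ t⟫_ℂ - (‖p‖ ^ 2 : ℝ))))
    have e8 := le_mul_of_one_le_left (norm_nonneg (⟪p, φ t⟫_ℂ - (‖p‖ ^ 2 : ℝ))) e6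
    rw [mem_sphere_zero_iff_norm.1 (k1 ht.1.2), RCLike.re_to_complex] at e5
    rw [sub_re, ofReal_re] at e7
    have e9 : ‖p - φ t‖ < ε0 / 2 := lt_of_pow_lt_pow_left₀ 2 (by positivity) (by
      nlinarith [p1 p e3, hε.2, sq_nonneg (1 - ‖p‖)])
    have := dist_triangle p (φ t) (φ t0)
    rw [dist_eq_norm p (φ t)] at this
    linarith [mem_ball.1 (hV ⟨ht.2, ht.1.1⟩).2]
  · have e6 : (0 : ℝ) < #P := by exact_mod_cast card_pos.2 ⟨p, hp⟩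
    refine (Real.volume_le_diam _).trans (ediam_le fun s hs t ht => ?_)
    have e3 := ((convex_ball t0 δ).inter (convex_Icc a b)).norm_image_sub_le_of_norm_hasDerivWithin_le
      (f := fun t : ℝ => ⟪p, φ t⟫_ℂ - t • c) (f' := fun t => ⟪p, φ' t⟫_ℂ - c) (C := ‖c‖ / 2)
      (fun t ht => by
        simpa [Function.comp_def] using ((((innerSL ℂ p).restrictScalars ℝ).hasFDerivAt.comp_hasDerivWithinAt t
          (hd t ht.2)).fun_sub ((hasDerivWithinAt_id t _).smul_const c)).mono Set.inter_subset_right)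
      (fun t ht => (mem_ball_iff_norm.1 (e2 hs.2.1 (hV ht).1)).le) ht.1 hs.1
    have e4 := norm_sub_le (⟪p, φ s⟫_ℂ - (‖p‖ ^ 2 : ℝ)) (⟪p, φ t⟫_ℂ - (‖p‖ ^ 2 : ℝ))
    have e5 := norm_sub_norm_le ((s - t) • c) (⟪p, φ s⟫_ℂ - ⟪p, φ t⟫_ℂ)
    rw [norm_sub_rev ((s - t) • c), sub_smul, sub_sub_sub_comm, ← sub_smul, norm_smul] at e5
    rw [sub_sub_sub_cancel_right] at e4
    rw [edist_dist, dist_eq_norm]
    refine ENNReal.ofReal_le_ofReal ?_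
    rw [le_div_iff₀ e6, le_div_iff₀ c0]
    nlinarith [hs.2.2, ht.2.2]
  · rcases P.eq_empty_or_nonempty with rfl | h
    · simp
    have e6 : (0 : ℝ) < #P := by exact_mod_cast card_pos.2 h
    rw [nsmul_eq_mul, ← ENNReal.ofReal_natCast, ← ENNReal.ofReal_mul e6.le, mul_div_cancel₀ _ e6.ne']

end Pool.Agent.H.MP_36132b_an
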